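import Pool.Agent.Helper70.KN.Goals

/-!
# PROJECT KN, packet KO: the Newton number as an alternating sum
-/

open Finset

namespace Pool.Agent.Helper98.KN.KO

open Pool.Agent.Helper70.KN

theorem t (hVJ : S_VJ) : S_KO := by
  intro N V
  have h1 : newtonNumber V =
      ∑ J : Finset (Fin N), (-1) ^ J.card * ((N - J.card).factorial : ℝ) * W V J := by
    unfold newtonNumber
    rw [← Equiv.sum_comp (Function.Involutive.toPerm (compl : Finset (Fin N) → Finset (Fin N))
      compl_involutive)]
    refine Finset.sum_congr rfl fun J _ => ?_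
    have hJ : J.card ≤ N := by
      have := Finset.card_le_univ J
      rwa [Fintype.card_fin] at this
    have e : (Jᶜ).card = N - J.card := by
      rw [Finset.card_compl, Fintype.card_fin]
    show (-1) ^ (N - (Jᶜ).card) * ((Jᶜ).card.factorial : ℝ) * vol V Jᶜ = _
    rw [e, hVJ N V J, Nat.sub_sub_self hJ]
  rw [h1, ← Finset.powerset_univ, Finset.sum_powerset, Finset.card_univ, Fintype.card_fin]
  refine Finset.sum_congr rfl fun k _ => ?_
  unfold T X
  rw [← mul_assoc, Finset.mul_sum]
  refine Finset.sum_congr rfl fun J hJ => ?_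
  rw [(Finset.mem_powersetCard.1 hJ).2]

end Pool.Agent.Helper98.KN.KO
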